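import Pool.Agent.N573.LPG.P4
import Pool.Agent.N573.LPG.Base
import Pool.Agent.N573.LPG.EUP
import Pool.Agent.N383.LPG.ResLaw
import Pool.Agent.N475.LPG.ADDNRM
import Pool.Agent.N711.LPG.ELO
import Pool.Agent.N591.LPG.GOE
import Pool.Agent.N769.LPG.RF
import Pool.Agent.N46.LPG.INS

/-!
# Delocalization of the optimizers in the `ℓ_p`-Grothendieck problem, `2 < p < ∞`

The question is answered in the affirmative, with the explicit exponent `C = 1 / (2 (p - 2))`:
for every `p > 2` there is a constant `K` such that, with probability tending to one, every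
optimizer `x` of `max {⟨G x, x⟩ : ‖x‖_p ≤ 1}`, `G` an `n × n` matrix from the Gaussian orthogonal
ensemble, satisfies `‖x‖_∞ ≤ K (log n) ^ C n ^ (-1/p)`.

Idea of the proof.  For the constraint `‖y‖_p^p ≤ n` let `M S v` be the maximum of
`⟨W y, y⟩ + 2 ⟨v, y⟩` over the vectors which vanish on `S`.  If `y` is a maximizer, the average over
`i` of the cost of removing the coordinate `i` is deterministically of order `√n`.  Exchangeability
turns this into a bound for the mean of the response of the maximum to one Gaussian field of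
unit variance; adding `k` independent fields one after the other, the response to a field of
variance `k` is at most a constant times `k √n` (plus the concentration error).  The field
`y_i W_{i·}` seen by the other coordinates costs `|y_i|^2 √n`, while the coordinate
`i` uses the share `|y_i|^p / n` of the budget, worth `|y_i|^p √n`; comparing the two
powers bounds `|y_i|`.
-/

set_option autoImplicit false

open MeasureTheory ProbabilityTheory Filter Topology

namespace Pool.Agent.Results.MP_98bed0_pr.Delocalization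

/-- `G` is an `n × n` random matrix from the Gaussian orthogonal ensemble: it is symmetric and its
entries `G i j`, `i ≤ j`, are independent centred Gaussian random variables with variance `1 / n`
off the diagonal and `2 / n` on the diagonal. -/
structure IsGOE {Ω : Type} [MeasurableSpace Ω] (P : Measure Ω) {n : ℕ}
    (G : Ω → Matrix (Fin n) (Fin n) ℝ) : Prop where
  /-- the matrix is symmetric -/
  symm : ∀ ω i j, G ω i j = G ω j i
  /-- the laws of the entries -/
  law : ∀ i j : Fin n, i ≤ j → HasLaw (fun ω => G ω i j)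
    (gaussianReal 0 (if i = j then 2 / (n : NNReal) else 1 / (n : NNReal))) P
  /-- the entries on and above the diagonal are independent -/
  indep : iIndepFun (fun (z : {z : Fin n × Fin n // z.1 ≤ z.2}) ω => G ω z.1.1 z.1.2) P

/-- the `ℓ_p` norm -/
noncomputable def lpNorm (p : ℝ) {n : ℕ} (x : Fin n → ℝ) : ℝ := (∑ i, |x i| ^ p) ^ (1 / p)

/-- `x` is an optimizer: `‖x‖_p ≤ 1` and `⟨G x, x⟩` is maximal under this condition -/
def IsOptimizer (p : ℝ) {n : ℕ} (G : Matrix (Fin n) (Fin n) ℝ) (x : Fin n → ℝ) : Prop :=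
  lpNorm p x ≤ 1 ∧ ∀ y : Fin n → ℝ, lpNorm p y ≤ 1 →
    dotProduct (G.mulVec y) y ≤ dotProduct (G.mulVec x) x

/-- For every `p > 2` there is a constant `K` such that for all random matrices `G n` from the
Gaussian orthogonal ensemble, with probability tending to one, every optimizer `x` of the
`ℓ_p`-Grothendieck problem satisfies `|x i| ≤ K (log n) ^ (1 / (2 (p - 2))) n ^ (-1/p)` for
all `i`. -/
theorem result (p : ℝ) (hp : 2 < p) : ∃ K : ℝ, 0 < K ∧
    ∀ (Ω : ℕ → Type) [∀ n, MeasurableSpace (Ω n)] (P : ∀ n, Measure (Ω n))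
      [∀ n, IsProbabilityMeasure (P n)] (G : ∀ n, Ω n → Matrix (Fin n) (Fin n) ℝ),
      (∀ n, IsGOE (P n) (G n)) →
      Tendsto (fun n : ℕ => P n {ω | ∃ x, IsOptimizer p (G n ω) x ∧
        ∃ i, K * (Real.log n) ^ (1 / (2 * (p - 2))) * (n : ℝ) ^ (-(1 / p)) < |x i|})
        atTop (𝓝 0) := by
  obtain ⟨K, hK, hcore⟩ := N573.LPG.core N383.LPG.t_RES N383.LPG.t_LAW N475.LPG.t_ADD
    N475.LPG.t_NRM N573.LPG.t_EUP N711.LPG.ELO.t_ELO
    (N769.LPG.t_REM N573.LPG.t_ATT N573.LPG.t_SQ) (N46.LPG.INS.t_INS N573.LPG.t_ATT)
    (N769.LPG.t_FIN N573.LPG.t_ATT) hp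
  have hC : 0 < 1 / (2 * (p - 2)) := by
    have : 0 < p - 2 := by linarith
    positivity
  refine ⟨K, by linarith, fun Ω _ P _ G hG => ?_⟩
  exact N591.LPG.GOE.t_GOE p _ K hp hC (by linarith) hcore Ω P G
    (fun n => ⟨(hG n).symm, (hG n).law, (hG n).indep⟩)

end Pool.Agent.Results.MP_98bed0_pr.Delocalization
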